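import Pool.Agent.H964.DP.Stm2

/-! # Project DP (owner helper964), task PART1 (helper297): the upper bound for `-p` -/

set_option autoImplicit false

open MeasureTheory ProbabilityTheory Filter Finset

namespace Pool.Agent.H297.DP

open Pool.Agent.H964.DP

/-! ### second moments -/

theorem Ep_sum4 {n : ℕ} (G : Fin 4 → (Fin n → Fin 4) → ℝ) :
    Ep n (fun τ => (∑ e, G e τ) / 4) = (∑ e, Ep n (G e)) / 4 := by
  unfold Ep
  rw [← Finset.sum_div, ← Finset.sum_div, Finset.sum_comm, div_right_comm]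

/-- the weighted sum over pairs of paths -/
noncomputable def Fn (g φ : V → ℝ) (n : ℕ) (x y : V) : ℝ :=
  Ep n (fun τ => Ep n (fun τ' => (∏ k ∈ range n, g (x + pos τ (k + 1) - (y + pos τ' (k + 1)))) *
    φ (x + pos τ n - (y + pos τ' n))))

theorem Fn_zero (g φ : V → ℝ) (x y : V) : Fn g φ 0 x y = φ (x - y) := by
  unfold Fn
  rw [Ep_zero _ (fun i => i.elim0), Ep_zero _ (fun i => i.elim0)]
  rw [pos_zero, Finset.range_zero, Finset.prod_empty, one_mul, add_zero, add_zero]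

theorem Fn_succ (g φ : V → ℝ) (n : ℕ) (x y : V) : Fn g φ (n + 1) x y =
    avg (fun x' => avg (fun y' => g (x' - y') * Fn g φ n x' y') y) x := by
  unfold Fn
  rw [Ep_succ]
  unfold avg
  congr 1
  refine Finset.sum_congr rfl fun e _ => ?_
  simp only [Ep_succ]
  rw [Ep_sum4]
  congr 1
  refine Finset.sum_congr rfl fun e' _ => ?_
  rw [← Ep_mul]
  congr 1
  funext τ
  rw [← Ep_mul]
  congr 1
  funext τ'
  rw [Finset.prod_range_succ', pos_cons, pos_cons, pos_cons, pos_cons, pos_zero, pos_zero]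
  have h1 : ∀ k, x + pos (Fin.cons e τ : Fin (n + 1) → Fin 4) (k + 1 + 1) -
      (y + pos (Fin.cons e' τ' : Fin (n + 1) → Fin 4) (k + 1 + 1)) =
      x + stp e + pos τ (k + 1) - (y + stp e' + pos τ' (k + 1)) := by
    intro k
    rw [pos_cons, pos_cons]
    abel
  simp only [h1]
  have h2 : x + (stp e + 0) - (y + (stp e' + 0)) = x + stp e - (y + stp e') := by abel
  have h3 : x + (stp e + pos τ n) - (y + (stp e' + pos τ' n)) =
      x + stp e + pos τ n - (y + stp e' + pos τ' n) := by abel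
  rw [h2, h3]
  ring

theorem Fn_le {g g' φ : V → ℝ} {D : V → Prop} (hg0 : ∀ z, 0 ≤ g z) (hgg : ∀ z, g z ≤ g' z)
    (hgD : ∀ z, ¬ D z → g z = 0) (hφ : ∀ z, 0 ≤ φ z)
    (h : ∀ z, D z → avg (avg (fun y => g' y * φ y)) z ≤ φ z) :
    ∀ (n : ℕ) (x y : V), D (x - y) → Fn g φ n x y ≤ φ (x - y)
  | 0, x, y, _ => (Fn_zero g φ x y).le
  | n + 1, x, y, hD => by
    rw [Fn_succ]
    refine le_trans ?_ (h _ hD)
    rw [← avg_two]
    refine avg_le fun e => avg_le fun e' => ?_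
    generalize x + stp e = x'
    generalize y + stp e' = y'
    by_cases hD' : D (x' - y')
    · have h1 := Fn_le hg0 hgg hgD hφ h n x' y' hD'
      calc g (x' - y') * Fn g φ n x' y' ≤ g (x' - y') * φ (x' - y') :=
            mul_le_mul_of_nonneg_left h1 (hg0 _)
        _ ≤ g' (x' - y') * φ (x' - y') := mul_le_mul_of_nonneg_right (hgg _) (hφ _)
    · rw [hgD _ hD', zero_mul]
      exact mul_nonneg ((hg0 _).trans (hgg _)) (hφ _)

theorem second_moment {φ h : V → ℝ} {c lam b r : ℝ} (hc : 0 < c) (hr : 0 ≤ r)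
    (hφ : ∀ z, 0 ≤ φ z ∧ φ z ≤ 1) (hφc : ∀ z, ns z ≤ r → c ≤ φ z)
    (hb : 0 ≤ b) (hbl : b ≤ lam)
    (hs : ∀ z, ns z ≤ r → avg (avg (fun y => Real.exp (lam * |h y|) * φ y)) z ≤ φ z)
    {N : ℕ} (R : Finset (Fin N → Fin 4))
    (hR : ∀ τ ∈ R, ∀ τ' ∈ R, ∀ j ≤ N, ns (pos τ j - pos τ' j) ≤ r) :
    (∑ τ ∈ R, ∑ τ' ∈ R, Real.exp (b * ∑ k ∈ range N, h (pos τ (k + 1) - pos τ' (k + 1)))) / 16 ^ N ≤
      1 / c := by
  classical
  obtain ⟨g, hg⟩ : ∃ g : V → ℝ, ∀ z, g z = if ns z ≤ r then Real.exp (lam * |h z|) else 0 :=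
    ⟨_, fun _ => rfl⟩
  have hg0 : ∀ z, 0 ≤ g z := by
    intro z
    rw [hg]
    split_ifs
    · exact (Real.exp_pos _).le
    · exact le_rfl
  have hgg : ∀ z, g z ≤ Real.exp (lam * |h z|) := by
    intro z
    rw [hg]
    split_ifs
    · exact le_rfl
    · exact (Real.exp_pos _).le
  have hgD : ∀ z, ¬ ns z ≤ r → g z = 0 := by
    intro z hz
    rw [hg, if_neg hz]
  have hns0 : ns 0 ≤ r := by
    unfold ns
    simpa using hr
  have key := Fn_le (D := fun z => ns z ≤ r) hg0 hgg hgD (fun z => (hφ z).1) hs N 0 0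
    (by simpa using hns0)
  have key2 : Fn g φ N 0 0 ≤ 1 := key.trans (hφ _).2
  have hpt : ∀ τ ∈ R, ∀ τ' ∈ R, Real.exp (b * ∑ k ∈ range N, h (pos τ (k + 1) - pos τ' (k + 1))) ≤
      (1 / c) * ((∏ k ∈ range N, g (0 + pos τ (k + 1) - (0 + pos τ' (k + 1)))) *
        φ (0 + pos τ N - (0 + pos τ' N))) := by
    intro τ hτ τ' hτ'
    simp only [zero_add]
    have h1 : ∏ k ∈ range N, g (pos τ (k + 1) - pos τ' (k + 1)) =
        Real.exp (lam * ∑ k ∈ range N, |h (pos τ (k + 1) - pos τ' (k + 1))|) := by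
      rw [Finset.mul_sum, Real.exp_sum]
      refine Finset.prod_congr rfl fun k hk => ?_
      rw [hg, if_pos (hR τ hτ τ' hτ' (k + 1) (Finset.mem_range.1 hk))]
    rw [h1]
    have h2 : c ≤ φ (pos τ N - pos τ' N) := hφc _ (hR τ hτ τ' hτ' N le_rfl)
    have h3 : b * ∑ k ∈ range N, h (pos τ (k + 1) - pos τ' (k + 1)) ≤
        lam * ∑ k ∈ range N, |h (pos τ (k + 1) - pos τ' (k + 1))| := by
      have h4 : ∑ k ∈ range N, h (pos τ (k + 1) - pos τ' (k + 1)) ≤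
          ∑ k ∈ range N, |h (pos τ (k + 1) - pos τ' (k + 1))| :=
        Finset.sum_le_sum fun k _ => le_abs_self _
      have h5 : 0 ≤ ∑ k ∈ range N, |h (pos τ (k + 1) - pos τ' (k + 1))| :=
        Finset.sum_nonneg fun k _ => abs_nonneg _
      exact (mul_le_mul_of_nonneg_left h4 hb).trans (mul_le_mul_of_nonneg_right hbl h5)
    have h6 := Real.exp_le_exp.2 h3
    have h7 := Real.exp_pos (lam * ∑ k ∈ range N, |h (pos τ (k + 1) - pos τ' (k + 1))|)
    calc _ ≤ _ := h6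
      _ = (1 / c) * (Real.exp (lam * ∑ k ∈ range N, |h (pos τ (k + 1) - pos τ' (k + 1))|) * c) := by
          field_simp
      _ ≤ _ := mul_le_mul_of_nonneg_left (mul_le_mul_of_nonneg_left h2 h7.le) (by positivity)
  have hnn : ∀ τ τ' : Fin N → Fin 4, 0 ≤ (1 / c) *
      ((∏ k ∈ range N, g (0 + pos τ (k + 1) - (0 + pos τ' (k + 1)))) *
        φ (0 + pos τ N - (0 + pos τ' N))) := fun τ τ' =>
    mul_nonneg (by positivity) (mul_nonneg (Finset.prod_nonneg fun k _ => hg0 _) (hφ _).1)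
  have h1 : ∑ τ ∈ R, ∑ τ' ∈ R, Real.exp (b * ∑ k ∈ range N, h (pos τ (k + 1) - pos τ' (k + 1))) ≤
      ∑ τ : Fin N → Fin 4, ∑ τ' : Fin N → Fin 4, (1 / c) *
        ((∏ k ∈ range N, g (0 + pos τ (k + 1) - (0 + pos τ' (k + 1)))) *
        φ (0 + pos τ N - (0 + pos τ' N))) := by
    refine (Finset.sum_le_sum fun τ hτ => Finset.sum_le_sum fun τ' hτ' => hpt τ hτ τ' hτ').trans ?_
    refine (Finset.sum_le_sum fun τ _ => Finset.sum_le_sum_of_subset_of_nonneg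
      (Finset.subset_univ R) fun τ' _ _ => hnn τ τ').trans ?_
    exact Finset.sum_le_sum_of_subset_of_nonneg (Finset.subset_univ R) fun τ _ _ =>
      Finset.sum_nonneg fun τ' _ => hnn τ τ'
  have h2 : ∑ τ : Fin N → Fin 4, ∑ τ' : Fin N → Fin 4, (1 / c) *
        ((∏ k ∈ range N, g (0 + pos τ (k + 1) - (0 + pos τ' (k + 1)))) *
        φ (0 + pos τ N - (0 + pos τ' N))) = (1 / c) * Fn g φ N 0 0 * 16 ^ N := by
    unfold Fn Ep
    have h16 : (16 : ℝ) ^ N = 4 ^ N * 4 ^ N := by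
      rw [← mul_pow]
      norm_num
    have h4 : (4 : ℝ) ^ N ≠ 0 := by positivity
    rw [h16, ← Finset.sum_div]
    simp only [← Finset.mul_sum]
    field_simp
  rw [div_le_iff₀ (by positivity)]
  refine h1.trans ?_
  rw [h2]
  have h16 : (0 : ℝ) < 16 ^ N := by positivity
  have h3 : (1 / c) * Fn g φ N 0 0 ≤ 1 / c := by
    have : (0 : ℝ) ≤ 1 / c := by positivity
    nlinarith
  exact mul_le_mul_of_nonneg_right h3 h16.le

/-! ### paths that stay in a box -/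

open Classical in
/-- paths that stay in the box of size `M` -/
noncomputable def RR (N : ℕ) (M : ℝ) : Finset (Fin N → Fin 4) :=
  univ.filter fun τ => ∀ j ≤ N, ¬ Out M (pos τ j)

theorem RR_diff {N : ℕ} {M : ℝ} {τ τ' : Fin N → Fin 4} (h : τ ∈ RR N M) (h' : τ' ∈ RR N M)
    {j : ℕ} (hj : j ≤ N) : ns (pos τ j - pos τ' j) ≤ 8 * M ^ 2 := by
  classical
  unfold RR at h h'
  rw [Finset.mem_filter] at h h'
  have h1 := h.2 j hj
  have h2 := h'.2 j hj
  unfold Out at h1 h2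
  push Not at h1 h2
  generalize pos τ j = p at *
  generalize pos τ' j = p' at *
  unfold ns
  have e1 : ((p - p').1 : ℝ) = (p.1 : ℝ) - p'.1 := by
    rw [Prod.fst_sub]
    push_cast
    ring
  have e2 : ((p - p').2 : ℝ) = (p.2 : ℝ) - p'.2 := by
    rw [Prod.snd_sub]
    push_cast
    ring
  rw [e1, e2]
  obtain ⟨a1, a2⟩ := abs_lt.1 h1.1
  obtain ⟨a3, a4⟩ := abs_lt.1 h1.2
  obtain ⟨b1, b2⟩ := abs_lt.1 h2.1
  obtain ⟨b3, b4⟩ := abs_lt.1 h2.2
  have c1 : ((p.1 : ℝ) - p'.1) ^ 2 ≤ (2 * M) ^ 2 := by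
    apply sq_le_sq'
    · linarith
    · linarith
  have c2 : ((p.2 : ℝ) - p'.2) ^ 2 ≤ (2 * M) ^ 2 := by
    apply sq_le_sq'
    · linarith
    · linarith
  nlinarith

theorem RR_card {N : ℕ} (hN : 1 ≤ N) {M : ℝ} (hM : 0 ≤ M) :
    1 - 4 * ((N : ℝ) + 1) * Real.exp (-(M ^ 2 / (2 * N))) ≤ ((RR N M).card : ℝ) / 4 ^ N := by
  classical
  have hN' : (0 : ℝ) < N := by exact_mod_cast hN
  have h1 : ((RR N M).card : ℝ) / 4 ^ N = Ep N (fun τ => if ∀ j ≤ N, ¬ Out M (pos τ j) then 1 else 0) := by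
    rw [← card_eq_Ep]
    rfl
  rw [h1]
  have h2 : ∀ τ : Fin N → Fin 4, (1 : ℝ) ≤ (if ∀ j ≤ N, ¬ Out M (pos τ j) then 1 else 0) +
      ∑ j ∈ range (N + 1), (if Out M (pos τ (0 + j) - pos τ 0) then 1 else 0) := by
    intro τ
    have hn : ∀ j, (0 : ℝ) ≤ (if Out M (pos τ (0 + j) - pos τ 0) then 1 else 0) := by
      intro j
      split_ifs <;> norm_num
    split_ifs with h
    · have := Finset.sum_nonneg (s := range (N + 1)) fun j _ => hn j
      linarith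
    · push Not at h
      obtain ⟨j, hj, ho⟩ := h
      have h3 := Finset.single_le_sum (s := range (N + 1))
        (f := fun j => (if Out M (pos τ (0 + j) - pos τ 0) then (1 : ℝ) else 0))
        (fun j _ => hn j) (Finset.mem_range.2 (Nat.lt_succ_of_le hj))
      have h4 : (if Out M (pos τ (0 + j) - pos τ 0) then (1 : ℝ) else 0) = 1 := by
        rw [if_pos]
        rw [pos_zero, sub_zero, zero_add]
        exact ho
      have h5 : (1 : ℝ) ≤ ∑ j ∈ range (N + 1),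
          (if Out M (pos τ (0 + j) - pos τ 0) then 1 else 0) := h4.symm.le.trans h3
      linarith
  have h3 := Ep_mono h2
  rw [Ep_const, Ep_add, Ep_sum] at h3
  have h4 : ∀ j ∈ range (N + 1), Ep N (fun τ => if Out M (pos τ (0 + j) - pos τ 0) then 1 else 0) ≤
      4 * Real.exp (-(M ^ 2 / (2 * N))) := by
    intro j hj
    have hj' : j ≤ N := Nat.lt_succ_iff.1 (Finset.mem_range.1 hj)
    have h5 := tail_incr (θ := M / N) (r := M) (by positivity) 0 j N (by omega)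
    refine h5.trans ?_
    refine mul_le_mul_of_nonneg_left (Real.exp_le_exp.2 ?_) (by norm_num)
    have h6 : (j : ℝ) ≤ N := by exact_mod_cast hj'
    have h7 : (j : ℝ) * ((M / N) ^ 2 / 2) ≤ N * ((M / N) ^ 2 / 2) :=
      mul_le_mul_of_nonneg_right h6 (by positivity)
    have h8 : -(M / N * M) + N * ((M / N) ^ 2 / 2) = -(M ^ 2 / (2 * N)) := by
      field_simp
      ring
    linarith
  have h5 := Finset.sum_le_sum h4
  rw [Finset.sum_const, Finset.card_range, nsmul_eq_mul] at h5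
  push_cast at h5
  linarith

/-! ### numerical estimates -/

theorem num1 {ε Λ x : ℝ} (hε : 0 < ε) (hε1 : ε < 1) (hΛ : 1 ≤ Λ) (hΛ2 : 1280 / ε ^ 2 ≤ Λ)
    (hx : Real.exp (ε * Λ / 2) / 32 ≤ x) :
    4 * (Real.exp ((2 - ε) * Λ) + 1) * Real.exp (-x) ≤ 1 / 2 := by
  have h1 : ε ^ 2 * Λ ^ 2 / 8 ≤ Real.exp (ε * Λ / 2) := by
    have h := Real.quadratic_le_exp_of_nonneg (x := ε * Λ / 2) (by positivity)
    have h0 : 0 ≤ ε * Λ / 2 := by positivity
    nlinarith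
  have h2 : 1280 ≤ ε ^ 2 * Λ := by
    rw [div_le_iff₀ (by positivity)] at hΛ2
    linarith
  have h3 : 5 * Λ ≤ x := by
    have : 1280 * Λ ≤ ε ^ 2 * Λ ^ 2 := by nlinarith
    linarith
  have h4 : 2 * Λ + 3 ≤ x := by linarith
  have h5 : Real.exp ((2 - ε) * Λ) + 1 ≤ 2 * Real.exp (2 * Λ) := by
    have h6 : Real.exp ((2 - ε) * Λ) ≤ Real.exp (2 * Λ) := Real.exp_le_exp.2 (by nlinarith)
    have h7 : 1 ≤ Real.exp (2 * Λ) := Real.one_le_exp (by linarith)
    linarith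
  have h6 : Real.exp (-x) ≤ Real.exp (-(2 * Λ)) * Real.exp (-3) := by
    rw [← Real.exp_add]
    exact Real.exp_le_exp.2 (by linarith)
  have h7 : Real.exp (-3) ≤ 1 / 16 := by
    rw [Real.exp_neg, inv_eq_one_div]
    apply one_div_le_one_div_of_le (by norm_num)
    have h8 : Real.exp 3 = Real.exp 1 ^ 3 := by
      rw [← Real.exp_nat_mul]
      norm_num
    rw [h8]
    have h9 := Real.exp_one_gt_d9
    have h10 : (2.7 : ℝ) ≤ Real.exp 1 := by linarith
    have h11 : (2.7 : ℝ) ^ 3 ≤ Real.exp 1 ^ 3 := pow_le_pow_left₀ (by norm_num) h10 3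
    norm_num at h11 ⊢
    linarith
  have h8 : Real.exp (2 * Λ) * Real.exp (-(2 * Λ)) = 1 := by
    rw [← Real.exp_add, add_neg_cancel, Real.exp_zero]
  have p1 := Real.exp_pos (-(2 * Λ))
  have p2 := Real.exp_pos (2 * Λ)
  have p3 := Real.exp_pos (-3 : ℝ)
  calc 4 * (Real.exp ((2 - ε) * Λ) + 1) * Real.exp (-x)
      ≤ 4 * (2 * Real.exp (2 * Λ)) * (Real.exp (-(2 * Λ)) * Real.exp (-3)) := by
        apply mul_le_mul _ h6 (Real.exp_pos _).le (by positivity)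
        linarith
    _ = 8 * (Real.exp (2 * Λ) * Real.exp (-(2 * Λ))) * Real.exp (-3) := by ring
    _ = 8 * Real.exp (-3) := by rw [h8, mul_one]
    _ ≤ 1 / 2 := by linarith

/-! ### the theorem -/

theorem t_PART1 : S_PART1 := by
  intro hglow hlowp a μ ha hμ hsup γ h hGS hAs ε hε hε1
  have ha2 : 0 < a + 2 := by linarith
  obtain ⟨κ, hκ⟩ : ∃ κ : ℝ, κ = (1 - ε / 4) ^ (a + 2) := ⟨_, rfl⟩
  have hq0 : 0 < 1 - ε / 4 := by linarith
  have hκ0 : 0 < κ := by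
    rw [hκ]
    exact Real.rpow_pos_of_pos hq0 _
  have hκ1 : κ < 1 := by
    rw [hκ]
    exact Real.rpow_lt_one hq0.le (by linarith) ha2
  obtain ⟨c, L₀, hc, hL₀, hS⟩ := hsup h hAs ((1 - κ) / 2) (by linarith) (by linarith)
  obtain ⟨C₀, hC₀⟩ := hglow (max 1 (1 / c)) ((1 - κ) / 2) (le_max_left _ _) (by linarith)
    (by linarith)
  obtain ⟨C₁, hC₁⟩ : ∃ C₁ : ℝ, C₁ = max C₀ 1 := ⟨_, rfl⟩
  have hC₁0 : 1 ≤ C₁ := by
    rw [hC₁]
    exact le_max_right _ _
  obtain ⟨Λ, hΛ⟩ : ∃ Λ : ℝ, Λ = max (max 1 (2 * L₀)) (max (1280 / ε ^ 2) (2 * C₁ / ε)) := ⟨_, rfl⟩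
  have hΛ1 : 1 ≤ Λ := by
    rw [hΛ]
    exact (le_max_left _ _).trans (le_max_left _ _)
  have hΛ2 : 2 * L₀ ≤ Λ := by
    rw [hΛ]
    exact (le_max_right _ _).trans (le_max_left _ _)
  have hΛ3 : 1280 / ε ^ 2 ≤ Λ := by
    rw [hΛ]
    exact (le_max_left _ _).trans (le_max_right _ _)
  have hΛ4 : 2 * C₁ / ε ≤ Λ := by
    rw [hΛ]
    exact (le_max_right _ _).trans (le_max_right _ _)
  have hΛ0 : 0 < Λ := by linarith
  have hΛp : 0 < Λ ^ (a + 2) := Real.rpow_pos_of_pos hΛ0 _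
  refine ⟨Real.sqrt (μ / (2 * Λ ^ (a + 2))), Real.sqrt_pos.2 (by positivity), ?_⟩
  intro β hβ0 hβ p hp
  -- the scale
  have hβ2 : β ^ 2 < μ / (2 * Λ ^ (a + 2)) := by
    have := (Real.lt_sqrt hβ0.le).1 hβ
    exact this
  have hβ2' : 0 < β ^ 2 := by positivity
  obtain ⟨l, hl⟩ : ∃ l : ℝ, l = Lc a μ β := ⟨_, rfl⟩
  have hlp : l ^ (a + 2) = μ / (2 * β ^ 2) := by
    rw [hl]
    unfold Lc
    rw [← Real.rpow_mul (by positivity), one_div, inv_mul_cancel₀ ha2.ne', Real.rpow_one]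
  have hl0 : 0 < l := by
    rw [hl]
    unfold Lc
    exact Real.rpow_pos_of_pos (by positivity) _
  have hlΛ : Λ ≤ l := by
    have h1 : Λ ^ (a + 2) ≤ l ^ (a + 2) := by
      rw [hlp, le_div_iff₀ (by positivity)]
      rw [lt_div_iff₀ (by positivity)] at hβ2
      linarith
    exact (Real.rpow_le_rpow_iff hΛ0.le hl0.le ha2).1 h1
  obtain ⟨L, hL⟩ : ∃ L : ℝ, L = (1 - ε / 4) * l := ⟨_, rfl⟩
  have hLL₀ : L₀ ≤ L := by
    rw [hL]
    nlinarith
  have hLp : L ^ (a + 2) = κ * l ^ (a + 2) := by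
    rw [hL, Real.mul_rpow hq0.le hl0.le, hκ]
  obtain ⟨φ, hφ1, hφ2, hφ3⟩ := hS L hLL₀
  obtain ⟨lam, hlam⟩ : ∃ lam : ℝ, lam = (1 - (1 - κ) / 2) * μ / (2 * L ^ (a + 2)) := ⟨_, rfl⟩
  rw [← hlam] at hφ3
  have hbl : (1 + (1 - κ) / 2) * β ^ 2 ≤ lam := by
    rw [hlam, hLp, hlp]
    have h1 : (1 - (1 - κ) / 2) * μ / (2 * (κ * (μ / (2 * β ^ 2)))) =
        (1 - (1 - κ) / 2) / κ * β ^ 2 := by
      field_simp
    rw [h1]
    apply mul_le_mul_of_nonneg_right _ hβ2'.le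
    rw [le_div_iff₀ hκ0]
    nlinarith
  -- the number of steps
  obtain ⟨N, hN⟩ : ∃ N : ℕ, N = ⌊Real.exp ((2 - ε) * l)⌋₊ := ⟨_, rfl⟩
  have hE1 : 1 ≤ Real.exp ((2 - ε) * l) := Real.one_le_exp (by nlinarith)
  have hN1 : 1 ≤ N := by
    rw [hN]
    exact Nat.le_floor (by exact_mod_cast hE1)
  have hNle : (N : ℝ) ≤ Real.exp ((2 - ε) * l) := by
    rw [hN]
    exact Nat.floor_le (by positivity)
  have hNge : Real.exp ((2 - ε) * l) / 2 ≤ N := by
    have h1 : Real.exp ((2 - ε) * l) < N + 1 := by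
      rw [hN]
      exact Nat.lt_floor_add_one _
    have h2 : (1 : ℝ) ≤ N := by exact_mod_cast hN1
    linarith
  have hN0 : (0 : ℝ) < N := by exact_mod_cast hN1
  obtain ⟨M, hM⟩ : ∃ M : ℝ, M = Real.exp L / 4 := ⟨_, rfl⟩
  have hM0 : 0 ≤ M := by
    rw [hM]
    positivity
  have hM2 : M ^ 2 = Real.exp (2 * L) / 16 := by
    rw [hM, div_pow, ← Real.exp_nat_mul]
    norm_num
  have hcard : 1 / 2 ≤ ((RR N M).card : ℝ) / 4 ^ N := by
    refine le_trans ?_ (RR_card hN1 hM0)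
    have h1 : Real.exp (ε * l / 2) / 32 ≤ M ^ 2 / (2 * N) := by
      rw [hM2, le_div_iff₀ (by positivity)]
      have h2 : Real.exp (ε * l / 2) * Real.exp ((2 - ε) * l) = Real.exp (2 * L) := by
        rw [← Real.exp_add, hL]
        congr 1
        ring
      have h3 : Real.exp (ε * l / 2) * N ≤ Real.exp (ε * l / 2) * Real.exp ((2 - ε) * l) :=
        mul_le_mul_of_nonneg_left hNle (Real.exp_pos _).le
      rw [h2] at h3
      linarith
    have h2 := num1 hε hε1 (hΛ1.trans hlΛ) (hΛ3.trans hlΛ) h1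
    have h3 : 4 * ((N : ℝ) + 1) * Real.exp (-(M ^ 2 / (2 * N))) ≤
        4 * (Real.exp ((2 - ε) * l) + 1) * Real.exp (-(M ^ 2 / (2 * N))) := by
      apply mul_le_mul_of_nonneg_right _ (Real.exp_pos _).le
      linarith
    linarith
  have hsm := second_moment (h := h) (r := Real.exp (2 * L)) hc (Real.exp_pos _).le hφ1 hφ2
    (b := (1 + (1 - κ) / 2) * β ^ 2) (lam := lam) (by
      apply mul_nonneg _ hβ2'.le
      linarith) hbl hφ3 (RR N M) (by
      intro τ hτ τ' hτ' j hj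
      refine (RR_diff hτ hτ' hj).trans ?_
      rw [hM2]
      have := Real.exp_pos (2 * L)
      linarith)
  have hint := hC₀ γ h hGS β N (RR N M) hcard (hsm.trans (le_max_right _ _))
  have hlow := hlowp γ h hGS β p hp N
  have h1 : -C₁ ≤ N * p := by
    have : C₀ ≤ C₁ := by
      rw [hC₁]
      exact le_max_left _ _
    linarith
  have h2 : -p ≤ C₁ / N := by
    rw [le_div_iff₀ hN0]
    linarith
  refine h2.trans ?_
  rw [← hl, div_le_iff₀ hN0]
  have h3 : Real.exp (-(2 * (1 - ε) * l)) * (Real.exp ((2 - ε) * l) / 2) =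
      Real.exp (ε * l) / 2 := by
    rw [← mul_div_assoc, ← Real.exp_add]
    congr 2
    ring
  have h4 : 2 * C₁ ≤ ε * l := by
    rw [div_le_iff₀ hε] at hΛ4
    nlinarith
  have h5 := Real.add_one_le_exp (ε * l)
  have h6 : Real.exp (-(2 * (1 - ε) * l)) * (Real.exp ((2 - ε) * l) / 2) ≤
      Real.exp (-(2 * (1 - ε) * l)) * N := mul_le_mul_of_nonneg_left hNge (Real.exp_pos _).le
  linarith

end Pool.Agent.H297.DP
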